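import Pool.Agent.W500.FL.Stm

set_option autoImplicit false

/-!
# Project FL, part V: a common multiple with degree divisible by four
-/

namespace Pool.Agent.W107.FL.V

open Polynomial Pool.Agent.W500.FL

theorem main : S_V := by
  intro K _ S hS
  have hQ : (∏ f ∈ S, f) ≠ 0 := Finset.prod_ne_zero_iff.mpr hS
  set Q : K[X] := ∏ f ∈ S, f with hQd
  have hlc : Q.leadingCoeff ≠ 0 := leadingCoeff_ne_zero.mpr hQ
  have hm : (C (Q.leadingCoeff)⁻¹ * Q).Monic := by
    rw [Monic, leadingCoeff_mul, leadingCoeff_C, inv_mul_cancel₀ hlc]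
  refine ⟨(C (Q.leadingCoeff)⁻¹ * Q) ^ 4, hm.pow 4, ?_, ?_⟩
  · rw [natDegree_pow]
    exact Dvd.intro _ rfl
  · intro f hf
    have h1 : f ∣ Q := Finset.dvd_prod_of_mem _ hf
    exact (h1.mul_left _).trans (dvd_pow_self _ (by norm_num))

end Pool.Agent.W107.FL.V
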